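import Pool.Agent.H17.QA.LemEDir

open MeasureTheory Filter Topology
open Pool.Agent.H17.IIC Pool.Agent.H41.QC Pool.Agent.H47.GM

namespace Pool.Agent.H17.QA

variable {d : ℕ}

lemma ThmB_latAdj_near {x y : V d} (h : LatAdj x y) (i : Fin d) : |y i - x i| ≤ 1 := by
  obtain ⟨s, rfl⟩ := h
  have := path_abs_stepVec_le s i
  simpa using this

lemma ThmB_near {l : List (V d)} (hl : l.IsChain LatAdj) (k : ℕ) (hk : k < l.length) (i : Fin d) :
    |l[k] i - (l[0]'(by omega)) i| ≤ k := by
  induction k with
  | zero => simp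
  | succ k ih =>
    have h1 := ih (by omega)
    have h2 : LatAdj l[k] l[k + 1] := (List.isChain_iff_getElem.1 hl) k hk
    have h3 := ThmB_latAdj_near h2 i
    push_cast
    calc |l[k + 1] i - (l[0]'(by omega)) i|
        = |(l[k + 1] i - l[k] i) + (l[k] i - (l[0]'(by omega)) i)| := by ring_nf
      _ ≤ |l[k + 1] i - l[k] i| + |l[k] i - (l[0]'(by omega)) i| := abs_add_le _ _
      _ ≤ (k : ℤ) + 1 := by linarith

lemma ThmB_head {l : List (V d)} {x : V d} (h : l.head? = some x) (h0 : 0 < l.length) : l[0] = x := by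
  rw [List.head?_eq_getElem?, List.getElem?_eq_getElem h0] at h
  exact Option.some.inj h

lemma ThmB_last {l : List (V d)} {y : V d} {N : ℕ} (h : l.getLast? = some y)
    (h0 : l.length = N + 1) : (l[N]'(by omega)) = y := by
  rw [List.getLast?_eq_getElem?] at h
  have h1 : l.length - 1 = N := by omega
  rw [h1, List.getElem?_eq_getElem (by omega)] at h
  exact Option.some.inj h

/-- all vertices of a member are near the start -/
lemma ThmB_fam_near {κ : Kind} {ω : El d → Bool} {A : Set (V d)} {x y : V d} {N : ℕ}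
    {l : List (V d)} (hl : l ∈ Fam κ ω A x y N) {v : V d} (hv : v ∈ l) (i : Fin d) :
    |v i - x i| ≤ N := by
  obtain ⟨h1, h2, h3, h4, h5⟩ := hl
  obtain ⟨k, hk, rfl⟩ := List.getElem_of_mem hv
  have h6 := ThmB_near h1.chain k hk i
  rw [ThmB_head h3 (by omega)] at h6
  refine h6.trans ?_
  exact_mod_cast (by omega : k ≤ N)

lemma ThmB_last_mem {κ : Kind} {ω : El d → Bool} {A : Set (V d)} {x y : V d} {N : ℕ}
    {l : List (V d)} (hl : l ∈ Fam κ ω A x y N) : y ∈ l := by
  obtain ⟨h1, h2, h3, h4, h5⟩ := hl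
  rw [← ThmB_last h4 h2]
  exact List.getElem_mem _

lemma ThmB_head_mem {κ : Kind} {ω : El d → Bool} {A : Set (V d)} {x y : V d} {N : ℕ}
    {l : List (V d)} (hl : l ∈ Fam κ ω A x y N) : x ∈ l := by
  obtain ⟨h1, h2, h3, h4, h5⟩ := hl
  rw [← ThmB_head h3 (by omega)]
  exact List.getElem_mem _

/-- number of members -/
lemma ThmB_card_le {κ : Kind} {ω : El d → Bool} {F : Finset (List (V d))} {x y : V d} {N : ℕ}
    (hF : IsFam κ ω F x y N) : (F.card : ℝ) ≤ (2 * d : ℝ) ^ N := by
  classical
  have hstep : ∀ a b : V d, LatAdj a b → ∃ s : Step d, b = a + stepVec s := fun a b h => h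
  rcases Nat.eq_zero_or_pos N with hN | hN
  · subst hN
    have : F.card ≤ 1 := by
      refine Finset.card_le_one.2 fun l hl l' hl' => ?_
      obtain ⟨h1, h2, h3, h4, h5⟩ := hF l hl
      obtain ⟨h1', h2', h3', h4', h5'⟩ := hF l' hl'
      rw [zero_add] at h2 h2'
      rw [List.length_eq_one_iff] at h2 h2'
      obtain ⟨a, rfl⟩ := h2
      obtain ⟨b, rfl⟩ := h2'
      simp only [List.head?_cons, Option.some.injEq] at h3 h3'
      rw [h3, h3']
    rw [pow_zero]
    exact_mod_cast this
  · rcases F.eq_empty_or_nonempty with he | ⟨l₀, hl₀⟩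
    · subst he
      simp only [Finset.card_empty, Nat.cast_zero]
      positivity
    have hd : Nonempty (Step d) := by
      obtain ⟨h1, h2, h3, h4, h5⟩ := hF l₀ hl₀
      obtain ⟨s, -⟩ := (List.isChain_iff_getElem.1 h1.chain) 0 (by omega)
      exact ⟨s⟩
    let f : List (V d) → (Fin N → Step d) := fun l t =>
      if h : ∃ s : Step d, l.getD (t + 1) 0 = l.getD t 0 + stepVec s then h.choose
      else Classical.choice hd
    have hf : ∀ l ∈ F, ∀ t : Fin N, l.getD (t + 1) 0 = l.getD t 0 + stepVec (f l t) := by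
      intro l hl t
      obtain ⟨h1, h2, h3, h4, h5⟩ := hF l hl
      have h6 : ∃ s : Step d, l.getD (t + 1) 0 = l.getD t 0 + stepVec s := by
        obtain ⟨s, hs⟩ := (List.isChain_iff_getElem.1 h1.chain) t (by omega)
        refine ⟨s, ?_⟩
        rw [List.getD_eq_getElem _ _ (by omega), List.getD_eq_getElem _ _ (by omega)]
        exact hs
      simp only [f]
      rw [dif_pos h6]
      exact h6.choose_spec
    have hinj : Set.InjOn f F := by
      intro l hl l' hl' hff
      have hl1 := hF l hl
      have hl1' := hF l' hl'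
      obtain ⟨h1, h2, h3, h4, h5⟩ := hl1
      obtain ⟨h1', h2', h3', h4', h5'⟩ := hl1'
      have key : ∀ k : ℕ, k ≤ N → l.getD k 0 = l'.getD k 0 := by
        intro k
        induction k with
        | zero =>
          intro _
          rw [List.getD_eq_getElem _ _ (by omega), List.getD_eq_getElem _ _ (by omega),
            ThmB_head h3 (by omega), ThmB_head h3' (by omega)]
        | succ k ih =>
          intro hk
          have e1 := hf l hl ⟨k, by omega⟩
          have e2 := hf l' hl' ⟨k, by omega⟩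
          simp only at e1 e2
          rw [e1, e2, hff, ih (by omega)]
      apply List.ext_getElem (by omega)
      intro k hk hk'
      have := key k (by omega)
      rwa [List.getD_eq_getElem _ _ hk, List.getD_eq_getElem _ _ hk'] at this
    have h1 : F.card ≤ (Finset.univ : Finset (Fin N → Step d)).card :=
      Finset.card_le_card_of_injOn f (fun _ _ => Finset.mem_coe.2 (Finset.mem_univ _)) hinj
    rw [Finset.card_univ, Fintype.card_fun, Fintype.card_prod, Fintype.card_fin, Fintype.card_bool,
      Fintype.card_fin] at h1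
    calc (F.card : ℝ) ≤ ((d * 2) ^ N : ℕ) := by exact_mod_cast h1
      _ = (2 * d : ℝ) ^ N := by push_cast; ring

end Pool.Agent.H17.QA
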