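import Pool.Agent.H17.QA.LemEDir

open MeasureTheory Filter Topology
open Pool.Agent.H17.IIC Pool.Agent.H41.QC Pool.Agent.H47.GM

namespace Pool.Agent.H17.QA

variable {d : ℕ}

/-- translation by `w` -/
def ThmB_sh (w : V d) (ω : El d → Bool) : El d → Bool := tr (fun y => y - w) ω

lemma ThmB_sh_apply (w : V d) (ω : El d → Bool) (a b : V d) :
    ThmB_sh w ω s(a + w, b + w) = ω s(a, b) := by
  simp [ThmB_sh, tr]

lemma ThmB_latAdj_add {a b w : V d} (h : LatAdj a b) : LatAdj (a + w) (b + w) := by
  obtain ⟨s, rfl⟩ := h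
  exact ⟨s, by abel⟩

lemma ThmB_OP_sh {κ : Kind} {ω : El d → Bool} {l : List (V d)} (w : V d) (h : OP κ ω l) :
    OP κ (ThmB_sh w ω) (l.map (· + w)) := by
  refine ⟨?_, ?_, ?_⟩
  · exact h.nodup.map (fun a b hab => add_right_cancel hab)
  · refine (List.isChain_map _).2 (h.chain.imp fun a b hab => ThmB_latAdj_add hab)
  · have h1 := h.opn
    cases κ with
    | bond =>
      simp only [Opn] at h1 ⊢
      refine (List.isChain_map _).2 (h1.imp fun a b hab => ?_)
      rw [ThmB_sh_apply]
      exact hab
    | site =>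
      simp only [Opn] at h1 ⊢
      intro a ha
      rw [List.mem_map] at ha
      obtain ⟨b, hb, rfl⟩ := ha
      rw [ThmB_sh_apply]
      exact h1 b hb

open Classical in
lemma ThmB_fam_sh {κ : Kind} {ω : El d → Bool} {F : Finset (List (V d))} {x y : V d} {N : ℕ}
    (w : V d) (hF : IsFam κ ω F x y N) :
    IsFam κ (ThmB_sh w ω) (F.image (List.map (· + w))) (x + w) (y + w) N := by
  intro l hl
  rw [Finset.mem_image] at hl
  obtain ⟨l', hl', rfl⟩ := hl
  obtain ⟨h1, h2, h3, h4, h5⟩ := hF l' hl'
  refine ⟨ThmB_OP_sh w h1, by rw [List.length_map, h2], ?_, ?_, fun v _ => Set.mem_univ _⟩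
  · rw [List.head?_map, h3]; rfl
  · rw [List.getLast?_map, h4]; rfl

open Classical in
lemma ThmB_card_sh (F : Finset (List (V d))) (w : V d) :
    (F.image (List.map (· + w))).card = F.card := by
  apply Finset.card_image_of_injective
  apply List.map_injective_iff.2
  intro a b hab
  exact add_right_cancel hab

/-- the list of a step sequence -/
def ThmB_lst {N : ℕ} (x : V d) (s : Fin N → Step d) : List (V d) :=
  List.ofFn (fun t : Fin (N + 1) => x + pos s (t : ℕ))

lemma ThmB_lst_fam {κ : Kind} {ω : El d → Bool} {N : ℕ} {x : V d} {s : Fin N → Step d}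
    (h : s ∈ PnBasic_OS κ ω N x) : ThmB_lst x s ∈ Fam κ ω Set.univ x (x + pos s N) N := by
  obtain ⟨h1, h2, h3, h4⟩ := Split_of_mem h
  have hlen : (ThmB_lst x s).length = N + 1 := by simp [ThmB_lst]
  have hget : ∀ (k : ℕ) (hk : k < (ThmB_lst x s).length), (ThmB_lst x s)[k] = x + pos s k := by
    intro k hk
    simp only [ThmB_lst, List.getElem_ofFn]
  refine ⟨⟨?_, ?_, ?_⟩, hlen, ?_, ?_, fun v _ => Set.mem_univ _⟩
  · rw [ThmB_lst, List.nodup_ofFn]
    intro a b hab
    exact Fin.ext (h2 a (by omega) b (by omega) hab)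
  · rw [List.isChain_iff_getElem]
    intro k hk
    rw [hget, hget]
    exact h1 k (by omega)
  · cases κ with
    | bond =>
      simp only [Opn]
      rw [List.isChain_iff_getElem]
      intro k hk
      rw [hget, hget]
      exact h3 rfl k (by omega)
    | site =>
      simp only [Opn]
      intro a ha
      obtain ⟨k, hk, rfl⟩ := List.getElem_of_mem ha
      rw [hget]
      exact h4 rfl k (by omega)
  · rw [List.head?_eq_getElem?, List.getElem?_eq_getElem (by omega), hget, pos_zero, add_zero]
  · rw [List.getLast?_eq_getElem?]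
    have h5 : (ThmB_lst x s).length - 1 = N := by omega
    rw [h5, List.getElem?_eq_getElem (by omega), hget]

lemma ThmB_lst_inj {N : ℕ} (x : V d) : Function.Injective (ThmB_lst x : (Fin N → Step d) → _) := by
  intro s s' h
  apply Split_ext
  intro t ht
  have h1 : ∀ s : Fin N → Step d, (ThmB_lst x s)[t]'(by simp [ThmB_lst]; omega) = x + pos s t := by
    intro s
    simp only [ThmB_lst, List.getElem_ofFn]
  have h2 := h1 s
  have h3 := h1 s'
  have h4 : (ThmB_lst x s)[t]'(by simp [ThmB_lst]; omega)
      = (ThmB_lst x s')[t]'(by simp [ThmB_lst]; omega) := by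
    congr 1
  rw [h2, h3] at h4
  exact add_left_cancel h4

/-- popular end point -/
lemma ThmB_popular {κ : Kind} {ω : El d → Bool} {N : ℕ} {x : V d} :
    ∃ (F : Finset (List (V d))) (y : V d), IsFam κ ω F x y N ∧
      (Pn κ ω N x : ℝ) ≤ (2 * N + 1 : ℝ) ^ d * F.card := by
  classical
  set OS := PnBasic_OS κ ω N x with hOS
  set T : Finset (V d) := Fintype.piFinset (fun i => Finset.Icc (x i - N) (x i + N)) with hT
  have hTc : T.card = (2 * N + 1) ^ d := by
    rw [hT, Fintype.card_piFinset]
    have : ∀ i : Fin d, (Finset.Icc (x i - N) (x i + N) : Finset ℤ).card = 2 * N + 1 := by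
      intro i
      rw [Int.card_Icc]
      omega
    rw [Finset.prod_congr rfl (fun i _ => this i), Finset.prod_const, Finset.card_univ,
      Fintype.card_fin]
  have hmap : ∀ s ∈ OS, x + pos s N ∈ T := by
    intro s _
    rw [hT, Fintype.mem_piFinset]
    intro i
    have := abs_pos_le s N i
    rw [abs_le] at this
    rw [Finset.mem_Icc]
    simp only [Pi.add_apply]
    constructor <;> linarith [this.1, this.2]
  have hTne : T.Nonempty := ⟨x, by
    rw [hT, Fintype.mem_piFinset]
    intro i
    rw [Finset.mem_Icc]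
    constructor <;> linarith [Int.natCast_nonneg N]⟩
  have hsum : OS.card = ∑ y ∈ T, (OS.filter fun s => x + pos s N = y).card :=
    Finset.card_eq_sum_card_fiberwise hmap
  obtain ⟨y, hy, hmax⟩ := Finset.exists_max_image T
    (fun y => (OS.filter fun s => x + pos s N = y).card) hTne
  refine ⟨(OS.filter fun s => x + pos s N = y).image (ThmB_lst x), y, ?_, ?_⟩
  · intro l hl
    rw [Finset.mem_image] at hl
    obtain ⟨s, hs, rfl⟩ := hl
    rw [Finset.mem_filter] at hs
    have := ThmB_lst_fam (κ := κ) (ω := ω) (x := x) (s := s) hs.1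
    rw [hs.2] at this
    exact this
  · rw [Finset.card_image_of_injective _ (ThmB_lst_inj x)]
    have h1 : OS.card ≤ T.card * (OS.filter fun s => x + pos s N = y).card := by
      rw [hsum, ← smul_eq_mul]
      exact Finset.sum_le_card_nsmul _ _ _ hmax
    rw [hTc] at h1
    have h2 : (Pn κ ω N x : ℝ) = OS.card := by
      rw [hOS, PnBasic_card_OS]
    rw [h2]
    exact_mod_cast h1

end Pool.Agent.H17.QA
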