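import Pool.Agent.H17.QA.Ctrl
import Pool.Agent.H17.QA.P1Defs
import Pool.Agent.H89.QA.T1
import Pool.Agent.H89.QA.T2

open MeasureTheory Filter Topology
open Pool.Agent.H17.IIC Pool.Agent.H41.QC Pool.Agent.H47.GM

namespace Pool.Agent.H17.QA

variable {d : ℕ}

/-- the start after translation -/
lemma ThmB_box {x x' : V d} {j : ℕ} (hx : x ∈ box (0 : V d) (2 ^ j))
    (h : ∀ i, |x' i - x i| ≤ ((2 ^ j : ℕ) : ℤ)) {M : ℕ} (hM : 3 * 2 ^ j ≤ M) :
    x' + (fun _ => (2 : ℤ) ^ j) ∈ box (0 : V d) M := by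
  rw [mem_box] at hx ⊢
  intro i
  have h1 := hx i
  have h2 := abs_le.1 (h i)
  simp only [Pi.zero_apply, Pi.add_apply, zero_add, Nat.cast_pow, Nat.cast_ofNat] at h1 h2 ⊢
  have h3 : (3 * 2 ^ j : ℤ) ≤ M := by exact_mod_cast hM
  constructor <;> linarith [h1.1, h1.2, h2.1, h2.2]

lemma ThmB_det (hd : 1 ≤ d) {b η η' ε κs : ℝ} {N₀ : ℕ} (hb : 0 ≤ b)
    (hε : 0 < ε) (hκs : 0 < κs) {κ : Kind}
    (hE : ∀ (ω : El d → Bool) (F : Finset (List (V d)))
      (x y : V d) (N : ℕ), N₀ ≤ N → IsFam κ ω F x y N →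
      (b + η) * N ≤ Real.log F.card →
      (∃ (m : Fin d) (j : ℕ), κs * N ≤ 2 ^ j ∧ RichBridge κ ω F (b + η') m j) ∨
      (∃ (F' : Finset (List (V d))) (x' y' : V d) (N' : ℕ), IsFam κ ω F' x' y' N' ∧
        (∀ l' ∈ F', ∃ l ∈ F, l' <:+: l) ∧ (b + η') * N' ≤ Real.log F'.card ∧
        κs * N ≤ Real.log F'.card - b * N' ∧
        ∀ l ∈ F', ∀ v ∈ l, ∀ i, (|v i - x' i| : ℝ) ≤ ε / 2 * (Real.log F'.card - b * N')))
    {a : ℝ} (ha : b + 2 * η ≤ a) {C₀ C₁ K Λ j : ℕ} (hC₀ : 1 ≤ κs * 2 ^ C₀)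
    (hC₁ : Real.log (2 * d) ≤ 2 ^ C₁) (hK : 6 ≤ κs * K) (hΛ : 1 ≤ κs * Λ) (hj0 : N₀ ≤ 2 ^ j)
    (hj1 : 1 ≤ κs * 2 ^ j) (hj2 : d * Real.log (2 * 2 ^ j + 1) ≤ η * 2 ^ j)
    {ω : El d → Bool}
    (h : ∃ x ∈ box (0 : V d) (2 ^ j), Real.exp (a * 2 ^ j) ≤ Pn κ ω (2 ^ j) x) :
    (∃ j' : ℕ, j ≤ j' + C₀ ∧ j' ≤ j + C₁ ∧
      ThmB_sh (fun _ => (2 : ℤ) ^ j) ω ∈ BR κ (b + η') Λ K j') ∨
    (∃ m : ℕ, j ≤ m + C₀ ∧ m ≤ j + C₁ ∧
      ThmB_sh (fun _ => (2 : ℤ) ^ j) ω ∈ CP κ b η' ε (box (0 : V d) (K * 2 ^ m)) m) := by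
  classical
  obtain ⟨x, hx, hP⟩ := h
  obtain ⟨F, y, hF, hcard⟩ := ThmB_popular (κ := κ) (ω := ω) (N := 2 ^ j) (x := x)
  have h2j : (0 : ℝ) < 2 ^ j := by positivity
  have hF0 : 0 < F.card := by
    rcases Nat.eq_zero_or_pos F.card with h0 | h0
    · exfalso
      rw [h0] at hcard
      have := Real.exp_pos (a * 2 ^ j)
      have h3 : (Pn κ ω (2 ^ j) x : ℝ) ≤ 0 := by simpa using hcard
      linarith
    · exact h0
  have hlogF : (b + η) * ((2 ^ j : ℕ) : ℝ) ≤ Real.log F.card := by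
    have h1 : a * 2 ^ j ≤ Real.log ((2 * ((2 ^ j : ℕ) : ℝ) + 1) ^ d * F.card) := by
      rw [← Real.log_exp (a * 2 ^ j)]
      exact Real.log_le_log (Real.exp_pos _) (hP.trans hcard)
    rw [Real.log_mul (by positivity) (by positivity), Real.log_pow] at h1
    push_cast at h1 ⊢
    nlinarith
  have hnear : ∀ l ∈ F, ∀ v ∈ l, ∀ i, |v i - x i| ≤ ((2 ^ j : ℕ) : ℤ) := fun l hl v hv i =>
    ThmB_fam_near (hF l hl) hv i
  rcases hE ω F x y (2 ^ j) hj0 hF hlogF with ⟨m, j', hκ, F', x', y', N', hne, hF', hsub, hBtw,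
    hdiff, hlog⟩ | ⟨F', x', y', N', hF', hsub, hlog, hT, hwid⟩
  · left
    obtain ⟨l', hl'⟩ := hne
    obtain ⟨l, hl, hinf⟩ := hsub l' hl'
    have hN' : N' ≤ 2 ^ j := by
      have h1 := hinf.length_le
      rw [(hF' l' hl').2.1, (hF l hl).2.1] at h1
      omega
    have hx' : ∀ i, |x' i - x i| ≤ ((2 ^ j : ℕ) : ℤ) := hnear l hl x' (hinf.subset (ThmB_head_mem (hF' l' hl')))
    have hj' : j' ≤ j := by
      have h1 := ThmB_fam_near (hF' l' hl') (ThmB_last_mem (hF' l' hl')) m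
      rw [hdiff] at h1
      have h2 : (2 : ℤ) ^ j' ≤ 2 ^ j := h1.trans (by exact_mod_cast hN')
      exact (Nat.pow_le_pow_iff_right (by norm_num : 1 < 2)).1 (by exact_mod_cast h2)
    push_cast at hκ
    have hjC : j ≤ j' + C₀ := by
      have h1 : (2 : ℝ) ^ j ≤ 2 ^ (j' + C₀) := by
        rw [pow_add]
        nlinarith [pow_pos (by norm_num : (0 : ℝ) < 2) C₀, pow_pos (by norm_num : (0 : ℝ) < 2) j']
      exact (pow_le_pow_iff_right₀ (by norm_num : (1 : ℝ) < 2)).1 h1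
    refine ⟨j', hjC, by omega, F'.image (List.map (· + fun _ => (2 : ℤ) ^ j)),
      x' + (fun _ => (2 : ℤ) ^ j), y' + (fun _ => (2 : ℤ) ^ j), N', m, ⟨_, Finset.mem_image_of_mem _ hl'⟩,
      ThmB_box hx hx' ?_, ThmB_fam_sh _ hF', ?_, ?_, ?_, ?_⟩
    · have h1 : (3 * 2 ^ j : ℝ) ≤ K * 2 ^ j' := by
        have hK0 : (0 : ℝ) ≤ K := Nat.cast_nonneg K
        nlinarith [mul_le_mul_of_nonneg_left hκ hK0]
      exact_mod_cast h1
    · intro l hl v hv
      rw [Finset.mem_image] at hl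
      obtain ⟨l₂, hl₂, rfl⟩ := hl
      rw [List.mem_map] at hv
      obtain ⟨v₂, hv₂, rfl⟩ := hv
      rcases hBtw l₂ hl₂ v₂ hv₂ with h1 | h1 | h1
      · exact Or.inl (by rw [h1])
      · exact Or.inr (Or.inl (by rw [h1]))
      · right; right
        simp only [Pi.add_apply]
        rw [min_add_add_right, max_add_add_right]
        constructor <;> linarith [h1.1, h1.2]
    · simp only [Pi.add_apply, add_sub_add_right_eq_sub]
      exact hdiff
    · have h1 : ((2 ^ j : ℕ) : ℝ) ≤ ((Λ * 2 ^ j' : ℕ) : ℝ) := by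
        push_cast
        have hK0 : (0 : ℝ) ≤ Λ := Nat.cast_nonneg Λ
        nlinarith [mul_le_mul_of_nonneg_left hκ hK0]
      exact hN'.trans (by exact_mod_cast h1)
    · rw [ThmB_card_sh]
      exact hlog
  · right
    set T := Real.log F'.card - b * N' with hTdef
    push_cast at hT
    have hN0 : (0 : ℝ) ≤ N' := Nat.cast_nonneg N'
    have hbN : 0 ≤ b * N' := mul_nonneg hb hN0
    have hT1 : 1 ≤ T := hj1.trans hT
    have hne : F'.Nonempty := by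
      by_contra hcon
      rw [Finset.not_nonempty_iff_eq_empty] at hcon
      have : T ≤ 0 := by
        rw [hTdef, hcon]
        simp
        exact hbN
      linarith
    obtain ⟨l', hl'⟩ := hne
    obtain ⟨l, hl, hinf⟩ := hsub l' hl'
    have hN' : N' ≤ 2 ^ j := by
      have h1 := hinf.length_le
      rw [(hF' l' hl').2.1, (hF l hl).2.1] at h1
      omega
    have hx' : ∀ i, |x' i - x i| ≤ ((2 ^ j : ℕ) : ℤ) := hnear l hl x' (hinf.subset (ThmB_head_mem (hF' l' hl')))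
    obtain ⟨m, hm1, hm2⟩ := exists_nat_pow_near hT1 (by norm_num : (1 : ℝ) < 2)
    have hF'0 : 0 < F'.card := Finset.card_pos.2 ⟨l', hl'⟩
    have hlogd : 0 ≤ Real.log (2 * d) := Real.log_nonneg (by
      have : (1 : ℝ) ≤ d := by exact_mod_cast hd
      linarith)
    have hup : T ≤ 2 ^ (j + C₁) := by
      have h1 : Real.log F'.card ≤ N' * Real.log (2 * d) := by
        rw [← Real.log_pow]
        exact Real.log_le_log (by exact_mod_cast hF'0) (ThmB_card_le hF')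
      have h2 : (N' : ℝ) * Real.log (2 * d) ≤ 2 ^ j * 2 ^ C₁ := by
        apply mul_le_mul _ hC₁ hlogd (by positivity)
        exact_mod_cast hN'
      rw [pow_add]
      linarith
    have hmj : m ≤ j + C₁ := by
      exact (pow_le_pow_iff_right₀ (by norm_num : (1 : ℝ) < 2)).1 (hm1.trans hup)
    have hjm : j ≤ m + C₀ := by
      have h1 : (2 : ℝ) ^ j < 2 ^ (m + C₀ + 1) := by
        have h3 : (2 : ℝ) ^ (m + C₀ + 1) = 2 ^ (m + 1) * 2 ^ C₀ := by ring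
        rw [h3]
        have hC : (0 : ℝ) < 2 ^ C₀ := by positivity
        have h4 : κs * 2 ^ j * 2 ^ C₀ < 2 ^ (m + 1) * 2 ^ C₀ :=
          mul_lt_mul_of_pos_right (hT.trans_lt hm2) hC
        nlinarith
      have := (pow_lt_pow_iff_right₀ (by norm_num : (1 : ℝ) < 2)).1 h1
      omega
    refine ⟨m, hjm, hmj, F'.image (List.map (· + fun _ => (2 : ℤ) ^ j)),
      x' + (fun _ => (2 : ℤ) ^ j), y' + (fun _ => (2 : ℤ) ^ j), N',
      ThmB_box hx hx' ?_, ThmB_fam_sh _ hF', ?_, ?_, ?_, ?_⟩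
    · have h1 : (3 * 2 ^ j : ℝ) ≤ K * 2 ^ m := by
        have hK0 : (0 : ℝ) ≤ K := Nat.cast_nonneg K
        have h5 : κs * 2 ^ j ≤ 2 ^ (m + 1) := (hT.trans_lt hm2).le
        rw [pow_succ] at h5
        nlinarith [mul_le_mul_of_nonneg_left h5 hK0]
      exact_mod_cast h1
    · rw [ThmB_card_sh]
      exact hlog
    · rw [ThmB_card_sh]
      linarith
    · rw [ThmB_card_sh]
      linarith
    · intro l hl v hv i
      rw [Finset.mem_image] at hl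
      obtain ⟨l₂, hl₂, rfl⟩ := hl
      rw [List.mem_map] at hv
      obtain ⟨v₂, hv₂, rfl⟩ := hv
      have h1 := hwid l₂ hl₂ v₂ hv₂ i
      simp only [Pi.add_apply]
      push_cast at h1 ⊢
      rw [add_sub_add_right_eq_sub]
      rw [pow_succ] at hm2
      nlinarith

end Pool.Agent.H17.QA
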